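import Pool.Agent.ASO.StmtsL

/-!
Row LC3 of the table `aso` (statement by helper66): the commutative case of the linear algebra.
-/

open scoped BigOperators

namespace Pool.Agent.PP.SO.H17

open Pool.Agent.PP.SO

theorem lc3 (lqu : LQuStmt) (lqs : LQsStmt) (lcm : LCmStmt) (ltb : LTbStmt) : LC3Stmt := by
  intro ℓ _ V Γ _ _ _ _ _ ρ F f₀ h hLF hHH hII e₀ θ he₀ hθ hcomm
  obtain ⟨u, D, a, b, hD, huu, hus, hρ, hb₀⟩ := lqu ℓ V Γ ρ hLF.od hLF.rk hLF.cp e₀ θ he₀ hθ hcomm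
  obtain ⟨hq, hinv, hA, hB, -⟩ := lqs ℓ V Γ ρ hLF.od hLF.rk u D a b e₀ hD huu hus hρ hb₀
  obtain ⟨⟨c, hc⟩, -, -⟩ := lcm ℓ V hLF.rk u hus
  have hc0 : c ≠ 0 := by
    rintro rfl
    exact hc 0 (by simp)
  obtain ⟨-, -, hf⟩ := ltb ℓ V hLF.rk c (u c) hc0 hc
  obtain ⟨ψ, hψu, hψc⟩ := hf 1 0
  obtain ⟨φ, hφu, hφc⟩ := hf 0 1
  have e1 : ∀ e, ρ e c = a e • c + b e • u c := by
    intro e
    rw [hρ e]
    simp
  have e2 : ∀ e, ρ e⁻¹ c = (a e / (a e ^ 2 - b e ^ 2 * D)) • c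
      - (b e / (a e ^ 2 - b e ^ 2 * D)) • u c := by
    intro e
    rw [hinv e]
    simp
  have hn := hLF.cp
  -- first relation
  have r1 := hII c c hc0 hc0 ψ ψ
  have r1' : (f₀ - F c - F c) * (2 * D * ∑ e : Γ, b e ^ 2 / (a e ^ 2 - b e ^ 2 * D)) = 0 := by
    have h1 : ∑ e : Γ, ((f₀ - F c - F c) * ψ (ρ e c) * ψ (ρ e⁻¹ c) + h c (ρ e c) * ψ c * ψ (ρ e⁻¹ c) +
        h c (ρ e⁻¹ c) * ψ (ρ e c) * ψ c) =
        - ((f₀ - F c - F c) * ∑ e : Γ, b e ^ 2 / (a e ^ 2 - b e ^ 2 * D)) := by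
      rw [Finset.mul_sum, ← Finset.sum_neg_distrib]
      refine Finset.sum_congr rfl fun e _ => ?_
      rw [e1, e2]
      simp only [map_add, map_sub, map_smul, smul_eq_mul, hψu, hψc]
      ring
    rw [h1, neg_eq_zero] at r1
    linear_combination 2 * D * r1
  rw [hB] at r1'
  have hf2 : f₀ - F c - F c = 0 := by
    rcases mul_eq_zero.1 r1' with h1 | h1
    · exact h1
    · exact absurd (neg_eq_zero.1 h1) hn
  -- second relation
  have r2 := hII c c hc0 hc0 φ φ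
  have h2 : ∑ e : Γ, ((f₀ - F c - F c) * φ (ρ e c) * φ (ρ e⁻¹ c) + h c (ρ e c) * φ c * φ (ρ e⁻¹ c) +
      h c (ρ e⁻¹ c) * φ (ρ e c) * φ c) =
      h c c * (2 * ∑ e : Γ, a e ^ 2 / (a e ^ 2 - b e ^ 2 * D)) := by
    rw [Finset.mul_sum, Finset.mul_sum]
    refine Finset.sum_congr rfl fun e _ => ?_
    rw [e1, e2, hf2]
    simp only [map_add, map_sub, map_smul, smul_eq_mul, hφu, hφc]
    ring
  rw [h2, hA] at r2
  have hcc : h c c = 0 := by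
    rcases mul_eq_zero.1 r2 with h1 | h1
    · exact h1
    · exact absurd h1 hn
  have h3 := (hHH c hc0).1
  rw [hcc] at h3
  linear_combination (-1 : ZMod ℓ) * hf2 + 2 * h3

end Pool.Agent.PP.SO.H17
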